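import Pool.Agent.Helper40.Nm.Goals

/-! Packet NPOW: surjectivity of the norm in Galois extensions of prime power degree. -/

namespace Pool.Agent.Helper96.Nm

open Pool.Agent.Helper40.Nm

theorem npow (h1 : NPRIME) (h2 : EXT) : NPOW := by
  intro R M E _ _ _ _ _ _ _ _ _ _ _ _ l r
  induction r generalizing R M E with
  | zero =>
    intro _ hfr a
    refine ⟨algebraMap M E a, ?_⟩
    rw [Algebra.norm_algebraMap, hfr, pow_zero, pow_one]
  | succ r ih =>
    intro hl hfr a
    have : Fact l.Prime := ⟨hl⟩
    have hcard : Nat.card (E ≃ₐ[M] E) = l ^ (r + 1) := by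
      rw [IsGalois.card_aut_eq_finrank, hfr]
    obtain ⟨H, hH⟩ := Sylow.exists_subgroup_card_pow_prime (G := E ≃ₐ[M] E) l (n := r)
      (by rw [hcard]; exact pow_dvd_pow _ (Nat.le_succ r))
    have hidx : H.index = l := by
      have h3 := H.card_mul_index
      rw [hH, hcard, pow_succ] at h3
      exact Nat.eq_of_mul_eq_mul_left (pow_pos hl.pos r) h3
    have hn : H.Normal := by
      apply Subgroup.normal_of_index_eq_minFac_card
      rw [hidx, hcard, Nat.Prime.pow_minFac hl (Nat.succ_ne_zero r)]
    let F : IntermediateField M E := IntermediateField.fixedField H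
    have : IsGalois M F := inferInstance
    have : IsGalois F E := inferInstance
    have hFE : Module.finrank F E = l ^ r := by
      rw [← hH]
      exact IntermediateField.finrank_fixedField_eq_card H
    have hMF : Module.finrank M F = l := by
      have h3 := Module.finrank_mul_finrank M F E
      rw [hFE, hfr, pow_succ, mul_comm] at h3
      exact Nat.eq_of_mul_eq_mul_left (pow_pos hl.pos r) h3
    let algRF : Algebra R F := ((algebraMap M F).comp (algebraMap R M)).toAlgebra
    have : IsScalarTower R M F := IsScalarTower.of_algebraMap_eq' rfl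
    obtain ⟨hf, _, _, hd, hc, ha, _⟩ := h2 R M (integralClosure R F) F
    have := hf
    let := hd
    have := hc
    have := ha
    obtain ⟨c, hc'⟩ := h1 R M F (by rw [hMF]; exact hl) a
    obtain ⟨b, hb⟩ := ih (integralClosure R F) F E hl hFE c
    refine ⟨b, ?_⟩
    rw [← Algebra.norm_norm (S := F), hb, hc']

end Pool.Agent.Helper96.Nm
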